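import Pool.Agent.H568R2.Collapse

set_option autoImplicit false

/-!
# Language-constrained DAG reachability is in `AC⁰` only for finite languages

Boolean circuits (`Circuit`, `eval`, `size`, `depth`: NOT gates and AND and OR gates of unbounded
fan-in) are defined in `Pool/Agent/H568R2/Defs.lean`. The circuits here are non-uniform, so the
theorem covers every uniform version of `AC⁰`.

Proof. Let `w ∈ L` be a word of length `N`. For `x ∈ {0,1}^N` take the graph with the vertices
`(i, b)`, `i ≤ N`, `b ∈ {0, 1}`, and the edges from `(i, b)` to `(i + 1, b + x_i)`, with the label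
`w_i`. All paths from `(0, 0)` to `(N, 0)` have the label `w`, and there is such a path if and only
if the parity of `x` is even. Every bit of the encoding of the graph depends on one bit of `x`, and
so circuits of constant depth and polynomial size for `L`-DAGREACH yield circuits for the parity of
`N` bits of constant depth and of size polynomial in `N`, for every length `N` of a word of `L`.
By the switching lemma such lengths `N` are bounded.
-/

namespace Pool.Agent.Results.MP_2049a1_lc.OnlyFiniteLanguages

open Finset DomAC0 H568R2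

/-- A directed graph with the vertices `0, ..., n - 1` whose edges carry labels from `A`:
`G u v = some a` means that there is an edge from `u` to `v` and that its label is `a`, and
`G u v = none` means that there is no edge from `u` to `v`. -/
abbrev LGraph (A : Type) (n : ℕ) : Type := Fin n → Fin n → Option A

/-- `IsPath G u l v`: there is a directed path in `G` from `u` to `v` with the label `l`. -/
inductive IsPath {A : Type} {n : ℕ} (G : LGraph A n) : Fin n → List A → Fin n → Prop
  | nil (u : Fin n) : IsPath G u [] u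
  | cons {u v w : Fin n} {a : A} {l : List A} :
      G u v = some a → IsPath G v l w → IsPath G u (a :: l) w

/-- The graph has no directed cycle. -/
def IsAcyclic {A : Type} {n : ℕ} (G : LGraph A n) : Prop :=
  ∀ (u : Fin n) (l : List A), IsPath G u l u → l = []

/-- An encoding of the instances `(G, s, t)` with `n` vertices by polynomially many bits: the bit
`j : Bit n` may depend in an arbitrary way on `s`, on `t` and on the entry of `G` at the position
`entry n j`. -/
structure Encoding (A : Type) where
  Bit : ℕ → Type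
  fin : ∀ n, Fintype (Bit n)
  card_le : ∃ c : ℕ, ∀ n, Fintype.card (Bit n) ≤ (n + 2) ^ c
  entry : ∀ n, Bit n → Fin n × Fin n
  val : ∀ n, Bit n → Fin n → Fin n → Option A → Bool

instance {A : Type} (E : Encoding A) (n : ℕ) : Fintype (E.Bit n) := E.fin n

/-- The bits of the instance `(G, s, t)`. -/
def Encoding.encode {A : Type} (E : Encoding A) {n : ℕ} (G : LGraph A n) (s t : Fin n) :
    E.Bit n → Bool :=
  fun j => E.val n j s t (G (E.entry n j).1 (E.entry n j).2)

/-- `L`-DAGREACH, with the instances encoded by `E`, is in (non-uniform) `AC⁰`: there are circuits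
`C n` of depth at most `d` and of size at most `(n + 2) ^ c` such that `C n` accepts the encoding of
an acyclic graph `G` with `n` vertices and of two vertices `s`, `t` if and only if there is a path
from `s` to `t` whose label is in `L`. -/
def DagReachInAC0 {A : Type} (E : Encoding A) (L : Set (List A)) : Prop :=
  ∃ (C : ∀ n, Circuit (E.Bit n)) (d c : ℕ), ∀ n, (C n).depth ≤ d ∧ (C n).size ≤ (n + 2) ^ c ∧
    ∀ (G : LGraph A n) (s t : Fin n), IsAcyclic G →
      ((C n).eval (E.encode G s t) = true ↔ ∃ l ∈ L, IsPath G s l t)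

open Classical in
/-- The standard encoding: the adjacency matrix `(u, v)`, for each pair `(u, v)` and each letter `a`
whether the edge from `u` to `v` has the label `a`, and for each vertex whether it is `s` and
whether it is `t`. -/
noncomputable def matrixEncoding (A : Type) [Finite A] : Encoding A where
  Bit n := (Fin n × Fin n) × Option A ⊕ Fin n ⊕ Fin n
  fin n := @instFintypeSum _ _ (@instFintypeProd _ _ _ (@instFintypeOption _ (Fintype.ofFinite A))) _
  card_le := by
    refine ⟨Nat.card A + 5, fun n => ?_⟩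
    have : Fintype A := Fintype.ofFinite A
    have h1 : Fintype.card ((Fin n × Fin n) × Option A ⊕ Fin n ⊕ Fin n) =
        n * n * (Nat.card A + 1) + (n + n) := by
      simp [Nat.card_eq_fintype_card]
    have h2 : Nat.card A + 1 ≤ (n + 2) ^ (Nat.card A + 1) := by
      calc Nat.card A + 1 ≤ 2 ^ (Nat.card A + 1) := Nat.lt_two_pow_self.le
        _ ≤ _ := Nat.pow_le_pow_left (by omega) _
    have h3 : n * n + (n + n) ≤ (n + 2) ^ 4 := by
      have : (n + 2) ^ 4 = (n + 2) * (n + 2) * ((n + 2) * (n + 2)) := by ring
      nlinarith [Nat.zero_le n]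
    have h4 : 1 ≤ (n + 2) ^ (Nat.card A + 1) := Nat.one_le_pow _ _ (by omega)
    calc _ = n * n * (Nat.card A + 1) + (n + n) := by convert h1
      _ ≤ n * n * (n + 2) ^ (Nat.card A + 1) + (n + n) * (n + 2) ^ (Nat.card A + 1) := by
        apply Nat.add_le_add
        · exact Nat.mul_le_mul_left _ h2
        · exact Nat.le_mul_of_pos_right _ h4
      _ = (n * n + (n + n)) * (n + 2) ^ (Nat.card A + 1) := by ring
      _ ≤ (n + 2) ^ 4 * (n + 2) ^ (Nat.card A + 1) := Nat.mul_le_mul_right _ h3
      _ = (n + 2) ^ (Nat.card A + 5) := by ring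
  entry n j := match j with
    | Sum.inl (p, _) => p
    | Sum.inr (Sum.inl u) => (u, u)
    | Sum.inr (Sum.inr u) => (u, u)
  val n j s t o := match j with
    | Sum.inl (_, none) => decide (o ≠ none)
    | Sum.inl (_, some a) => decide (o = some a)
    | Sum.inr (Sum.inl u) => decide (s = u)
    | Sum.inr (Sum.inr u) => decide (t = u)

/-! ### Parity is hard for circuits of constant depth -/

section parity

variable {I : Type} [Fintype I] [DecidableEq I] {J : Type} [Fintype J]

theorem ex_star {p : ℝ} (i : I) :
    Ex (wq p) (fun ρ : Restr I => if ρ i = none then (1 : ℝ) else 0) = p := by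
  rw [Ex_resample (wq_sum p) _ i]
  have h1 : (fun ω : Restr I => ∑ a, wq p a *
      (if Function.update ω i a i = none then (1 : ℝ) else 0)) = fun _ => p := by
    funext ω
    rw [Fintype.sum_option, Fintype.sum_bool]
    simp [wq]
  rw [h1, Ex_const (wq_sum p)]

/-- flip one coordinate -/
def flip (i : I) (x : I → Bool) : I → Bool := Function.update x i (!(x i))

theorem ov_flip (ρ : Restr I) (i : I) (hi : ρ i = none) (x : I → Bool) :
    ov ρ (flip i x) = flip i (ov ρ x) := by
  unfold ov flip
  funext j
  by_cases h : j = i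
  · subst h
    simp [hi]
  · simp [h]

open Classical in
theorem parity_bound (C : Circuit J) (σ : (I → Bool) → (J → Bool))
    (hσ : ∀ j, Junta 1 (fun x => σ x j)) {d k : ℕ} (hk : 1 ≤ k) (hd : C.depth ≤ d)
    (hpar : ∀ x i, C.eval (σ (flip i x)) ≠ C.eval (σ x)) {q : ℝ} (h0 : 0 ≤ q) (h1 : q ≤ 1 / 3) :
    (Fintype.card I : ℝ) * q ^ d ≤ KK k d + Fintype.card I *
      (d * ((C.size * (Fintype.card J + C.size + 1) : ℕ) : ℝ) * (4 ^ (KK k d) * (3 * q)) ^ k) := by
  have hcol := collapse C σ hσ h0 h1 hk d d le_rfl
  have hq1 : q ^ d ≤ 1 := pow_le_one₀ h0 (by linarith)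
  have hq0 : 0 ≤ q ^ d := pow_nonneg h0 d
  have hw : ∀ a, 0 ≤ wq (q ^ d) a := wq_nonneg hq0 hq1
  have hstars : Ex (wq (q ^ d)) (fun ρ : Restr I =>
      ((univ.filter fun i => ρ i = none).card : ℝ)) = Fintype.card I * q ^ d := by
    have e1 : (fun ρ : Restr I => ((univ.filter fun i => ρ i = none).card : ℝ)) =
        fun ρ : Restr I => ∑ i, if ρ i = none then (1 : ℝ) else 0 := by
      funext ρ
      rw [card_filter]
      push_cast
      rfl
    rw [e1, Ex_sum univ (wq (q ^ d)) fun i (ρ : Restr I) => if ρ i = none then (1 : ℝ) else 0]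
    rw [sum_congr rfl fun i _ => ex_star (p := q ^ d) i, sum_const, nsmul_eq_mul, card_univ]
  have hpt : ∀ ρ : Restr I, ((univ.filter fun i => ρ i = none).card : ℝ) ≤
      (KK k d : ℝ) + (Fintype.card I : ℝ) * (if ¬ Good C σ k d ρ then (1 : ℝ) else 0) := by
    intro ρ
    by_cases hG : Good C σ k d ρ
    · simp only [hG, not_true, if_false, mul_zero, add_zero]
      obtain ⟨A, hA, hdep⟩ := node_junta C σ hσ hk hG C.output hd
      have hsub : (univ.filter fun i => ρ i = none) ⊆ A := by
        intro i hi
        rw [mem_filter] at hi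
        by_contra hiA
        have h2 : rs (fun x => C.nodeVal (σ x) C.output) ρ (flip i (fun _ => false)) =
            rs (fun x => C.nodeVal (σ x) C.output) ρ (fun _ => false) := by
          apply hdep
          intro j hj
          have : j ≠ i := fun h => hiA (h ▸ hj)
          unfold flip
          rw [Function.update_of_ne this]
        unfold rs at h2
        rw [ov_flip ρ i hi.2] at h2
        exact hpar _ i h2
      exact_mod_cast (card_le_card hsub).trans hA
    · simp only [hG, not_false_iff, if_true, mul_one]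
      have h3 : ((univ.filter fun i => ρ i = none).card : ℝ) ≤ Fintype.card I := by
        exact_mod_cast card_le_univ _
      have h4 : (0 : ℝ) ≤ KK k d := Nat.cast_nonneg _
      linarith
  have h5 := Ex_mono hw hpt
  rw [hstars, Ex_add (wq (q ^ d)) (fun _ => (KK k d : ℝ)) fun ρ : Restr I => (Fintype.card I : ℝ) *
      (if ¬ Good C σ k d ρ then (1 : ℝ) else 0), Ex_smul, Ex_const (wq_sum _)] at h5
  refine h5.trans (add_le_add le_rfl ?_)
  exact mul_le_mul_of_nonneg_left hcol (Nat.cast_nonneg _)

end parity

/-! ### The layered graph -/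

section layered

variable {A : Type}

/-- the parity of the first `i` bits -/
def pp {N : ℕ} (x : Fin N → Bool) : ℕ → Bool
  | 0 => false
  | i + 1 => xor (pp x i) (if h : i < N then x ⟨i, h⟩ else false)

theorem pp_flip {N : ℕ} (x : Fin N → Bool) (i : Fin N) (m : ℕ) :
    pp (flip i x) m = xor (pp x m) (decide (i.val < m)) := by
  induction m with
  | zero => simp [pp]
  | succ m ih =>
    unfold pp
    rw [ih]
    by_cases h : m < N
    · rw [dif_pos h, dif_pos h]
      by_cases hi : i.val = m
      · have h1 : (⟨m, h⟩ : Fin N) = i := Fin.ext hi.symm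
        rw [h1]
        unfold flip
        rw [Function.update_self]
        have h2 : decide (i.val < m) = false := by simp [hi]
        have h3 : decide (i.val < m + 1) = true := by simp [hi]
        rw [h2, h3]
        cases pp x m <;> cases x i <;> rfl
      · have h1 : (⟨m, h⟩ : Fin N) ≠ i := fun e => hi (by rw [← e])
        unfold flip
        rw [Function.update_of_ne h1]
        have h2 : decide (i.val < m + 1) = decide (i.val < m) := by
          rw [decide_eq_decide]; omega
        rw [h2]
        cases pp x m <;> cases x ⟨m, h⟩ <;> cases decide (i.val < m) <;> rfl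
    · rw [dif_neg h, dif_neg h]
      have := i.isLt
      have h2 : decide (i.val < m + 1) = decide (i.val < m) := by
        rw [decide_eq_decide]; omega
      rw [h2]
      cases pp x m <;> cases decide (i.val < m) <;> rfl

/-- the level of a vertex -/
def lev {n : ℕ} (u : Fin n) : ℕ := u.val / 2

/-- the bit of a vertex -/
def bit {n : ℕ} (u : Fin n) : Bool := decide (u.val % 2 = 1)

/-- the graph of `w` and `x` -/
def lay (w : List A) (x : Fin w.length → Bool) : LGraph A (2 * (w.length + 1)) := fun u v =>
  if h : lev u < w.length then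
    if lev v = lev u + 1 ∧ bit v = xor (bit u) (x ⟨lev u, h⟩) then some (w[lev u]'h) else none
  else none

theorem lay_some {w : List A} {x : Fin w.length → Bool} {u v : Fin (2 * (w.length + 1))} {a : A}
    (h : lay w x u v = some a) : ∃ h : lev u < w.length, lev v = lev u + 1 ∧
      bit v = xor (bit u) (x ⟨lev u, h⟩) ∧ a = w[lev u]'h := by
  unfold lay at h
  by_cases h1 : lev u < w.length
  · rw [dif_pos h1] at h
    by_cases h2 : lev v = lev u + 1 ∧ bit v = xor (bit u) (x ⟨lev u, h1⟩)
    · rw [if_pos h2] at h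
      exact ⟨h1, h2.1, h2.2, (Option.some.inj h).symm⟩
    · rw [if_neg h2] at h
      exact absurd h (by simp)
  · rw [dif_neg h1] at h
    exact absurd h (by simp)

theorem path_inv {w : List A} {x : Fin w.length → Bool} {u v : Fin (2 * (w.length + 1))}
    {l : List A} (h : IsPath (lay w x) u l v) : lev v = lev u + l.length ∧
      xor (bit v) (pp x (lev v)) = xor (bit u) (pp x (lev u)) := by
  induction h with
  | nil u => simp
  | cons h1 _ ih =>
    obtain ⟨h2, h3, h4, -⟩ := lay_some h1
    refine ⟨by rw [ih.1, h3, List.length_cons]; omega, ?_⟩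
    rw [ih.2, h3, h4]
    show xor _ (xor _ _) = _
    rw [dif_pos h2]
    cases bit _ <;> cases pp x _ <;> cases x _ <;> rfl

theorem lay_acyclic (w : List A) (x : Fin w.length → Bool) : IsAcyclic (lay w x) := by
  intro u l h
  have := (path_inv h).1
  exact List.length_eq_zero_iff.1 (by omega)

/-- the vertex with level `i` and bit `b` -/
def vert (n i : ℕ) (b : Bool) (h : i ≤ n) : Fin (2 * (n + 1)) :=
  ⟨2 * i + b.toNat, by have := b.toNat_le; omega⟩

theorem lev_vert (n i : ℕ) (b : Bool) (h : i ≤ n) : lev (vert n i b h) = i := by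
  unfold lev vert
  have := b.toNat_le
  show (2 * i + b.toNat) / 2 = i
  omega

theorem bit_vert (n i : ℕ) (b : Bool) (h : i ≤ n) : bit (vert n i b h) = b := by
  unfold bit vert
  show decide ((2 * i + b.toNat) % 2 = 1) = b
  cases b
  · simp
  · simp

theorem exists_path (w : List A) (x : Fin w.length → Bool) : ∀ (m i : ℕ) (h : i + m = w.length),
    IsPath (lay w x) (vert w.length i (pp x i) (by omega)) (w.drop i)
      (vert w.length w.length (pp x w.length) le_rfl) := by
  intro m
  induction m with
  | zero =>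
    intro i h
    have h1 : i = w.length := by omega
    subst h1
    rw [List.drop_length]
    exact IsPath.nil _
  | succ m ih =>
    intro i h
    have hi : i < w.length := by omega
    rw [List.drop_eq_getElem_cons hi]
    refine IsPath.cons (v := vert w.length (i + 1) (pp x (i + 1)) (by omega)) ?_
      (ih (i + 1) (by omega))
    unfold lay
    have h1 : lev (vert w.length i (pp x i) (by omega)) = i := lev_vert _ _ _ _
    have h2 : lev (vert w.length i (pp x i) (by omega)) < w.length := by rw [h1]; exact hi
    rw [dif_pos h2, if_pos]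
    · congr 1
      simp only [h1]
    · refine ⟨by rw [lev_vert, lev_vert], ?_⟩
      rw [bit_vert, bit_vert]
      show xor _ _ = _
      rw [dif_pos hi]
      congr 3
      exact h1.symm

theorem path_iff (L : Set (List A)) (w : List A) (hw : w ∈ L) (x : Fin w.length → Bool) :
    (∃ l ∈ L, IsPath (lay w x) (vert w.length 0 false (by omega)) l
      (vert w.length w.length false le_rfl)) ↔ pp x w.length = false := by
  constructor
  · rintro ⟨l, -, h⟩
    have := (path_inv h).2
    rw [lev_vert, lev_vert, bit_vert, bit_vert] at this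
    simpa [pp] using this
  · intro h
    refine ⟨w, hw, ?_⟩
    have h1 := exists_path w x w.length 0 (by omega)
    rw [List.drop_zero, h] at h1
    exact h1

theorem local_junta (E : Encoding A) (w : List A) (s t : Fin (2 * (w.length + 1)))
    (j : E.Bit (2 * (w.length + 1))) : Junta 1 (fun x => E.encode (lay w x) s t j) := by
  by_cases h : lev (E.entry _ j).1 < w.length
  · refine ⟨{⟨_, h⟩}, by simp, ?_⟩
    intro x y hxy
    have h1 : x ⟨_, h⟩ = y ⟨_, h⟩ := hxy _ (by simp)
    show E.val _ j s t (lay w x _ _) = E.val _ j s t (lay w y _ _)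
    congr 1
    unfold lay
    rw [dif_pos h, dif_pos h, h1]
  · refine ⟨∅, by simp, ?_⟩
    intro x y _
    show E.val _ j s t (lay w x _ _) = E.val _ j s t (lay w y _ _)
    congr 1
    unfold lay
    rw [dif_neg h, dif_neg h]

end layered

/-- the lengths of the words are bounded -/
theorem exists_root (e : ℕ) (he : 1 ≤ e) (N : ℕ) : ∃ M : ℕ, M ^ e ≤ N ∧ N < (M + 1) ^ e := by
  have hex : ∃ m : ℕ, N < (m + 1) ^ e :=
    ⟨N, lt_of_lt_of_le (Nat.lt_succ_self N) (Nat.le_self_pow (by omega) _)⟩
  classical
  refine ⟨Nat.find hex, ?_, Nat.find_spec hex⟩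
  rcases Nat.eq_zero_or_pos (Nat.find hex) with h | h
  · rw [h, zero_pow (by omega)]
    exact Nat.zero_le _
  · have := Nat.find_min hex (Nat.sub_lt h Nat.one_pos)
    rw [Nat.sub_add_cancel h] at this
    omega

theorem bounded {A : Type} (E : Encoding A) (L : Set (List A)) (h : DagReachInAC0 E L) :
    ∃ B : ℕ, ∀ w ∈ L, w.length ≤ B := by
  obtain ⟨C, d₀, c, hC⟩ := h
  obtain ⟨c', hc'⟩ := E.card_le
  obtain ⟨d, hd⟩ : ∃ d, d = d₀ + 1 := ⟨_, rfl⟩
  obtain ⟨k, hk⟩ : ∃ k, k = 2 * d * (1 + 2 * c + c') := ⟨_, rfl⟩
  have hk1 : 1 ≤ k := by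
    rw [hk, hd]
    exact Nat.mul_pos (by omega) (by omega)
  obtain ⟨B₀, hB₀⟩ : ∃ B₀ : ℕ, B₀ = KK k d + 3 * d * 12 ^ k * (4 ^ KK k d * 3) ^ k + 3 := ⟨_, rfl⟩
  refine ⟨(2 * B₀) ^ (2 * d), fun w hw => ?_⟩
  obtain ⟨M, hM1, hM2⟩ := exists_root (2 * d) (by omega) w.length
  -- it suffices to bound `M`
  suffices hM : M ≤ B₀ by
    refine hM2.le.trans (Nat.pow_le_pow_left ?_ _)
    omega
  by_contra hcon
  have hM3 : 3 ≤ M := by omega
  obtain ⟨n, hn⟩ : ∃ n, n = 2 * (w.length + 1) := ⟨_, rfl⟩
  obtain ⟨h1, h2, h3⟩ := hC (2 * (w.length + 1))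
  have hM0 : (0 : ℝ) < M := by exact_mod_cast (show 0 < M by omega)
  have hq0 : (0 : ℝ) ≤ 1 / M := by positivity
  have hq1 : (1 : ℝ) / M ≤ 1 / 3 := by
    rw [div_le_div_iff₀ hM0 (by norm_num)]
    have : (3 : ℝ) ≤ M := by exact_mod_cast hM3
    linarith
  have hb := parity_bound (C (2 * (w.length + 1)))
    (fun x => E.encode (lay w x) (vert w.length 0 false (by omega))
      (vert w.length w.length false le_rfl)) (fun j => local_junta E w _ _ j) hk1
    (show (C (2 * (w.length + 1))).depth ≤ d by omega) (by
      intro x i heq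
      have e1 := h3 (lay w (flip i x)) (vert w.length 0 false (by omega))
        (vert w.length w.length false le_rfl) (lay_acyclic w _)
      have e2 := h3 (lay w x) (vert w.length 0 false (by omega))
        (vert w.length w.length false le_rfl) (lay_acyclic w _)
      rw [path_iff L w hw] at e1 e2
      have e3 : (pp (flip i x) w.length = false ↔ pp x w.length = false) := by
        rw [← e1, ← e2]
        exact Iff.of_eq (congrArg (· = true) heq)
      rw [pp_flip] at e3
      have e4 : decide (i.val < w.length) = true := by simp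
      rw [e4] at e3
      revert e3
      cases pp x w.length <;> simp) hq0 hq1
  rw [Fintype.card_fin] at hb
  -- the estimates
  set S := (C (2 * (w.length + 1))).size with hS
  set X := Fintype.card (E.Bit (2 * (w.length + 1))) with hX
  have hX' : X ≤ (2 * (w.length + 1) + 2) ^ c' := hc' _
  have hN : w.length < (2 * M) ^ (2 * d) := by
    refine hM2.trans_le (Nat.pow_le_pow_left ?_ _)
    omega
  have hV : 2 * (w.length + 1) + 2 ≤ (12 * M) ^ (2 * d) := by
    have e1 : (12 * M) ^ (2 * d) = 6 ^ (2 * d) * (2 * M) ^ (2 * d) := by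
      rw [← mul_pow]; congr 1; ring
    have e2 : 6 ≤ 6 ^ (2 * d) := Nat.le_self_pow (by omega) _
    rw [e1]
    nlinarith
  have hV0 : 1 ≤ (12 * M) ^ (2 * d) := Nat.one_le_pow _ _ (by omega)
  have hNb : w.length ≤ (12 * M) ^ (2 * d) := by omega
  have hSb : S ≤ ((12 * M) ^ (2 * d)) ^ c := h2.trans (Nat.pow_le_pow_left hV _)
  have hXb : X ≤ ((12 * M) ^ (2 * d)) ^ c' := hX'.trans (Nat.pow_le_pow_left hV _)
  obtain ⟨V, hVd⟩ : ∃ V, V = (12 * M) ^ (2 * d) := ⟨_, rfl⟩
  rw [← hVd] at hV0 hNb hSb hXb
  have hsum : X + S + 1 ≤ 3 * V ^ (c + c') := by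
    have e1 : V ^ c ≤ V ^ (c + c') := Nat.pow_le_pow_right hV0 (by omega)
    have e2 : V ^ c' ≤ V ^ (c + c') := Nat.pow_le_pow_right hV0 (by omega)
    have e3 : 1 ≤ V ^ (c + c') := Nat.one_le_pow _ _ hV0
    omega
  have hprod : w.length * (S * (X + S + 1)) ≤ 3 * 12 ^ k * M ^ k := by
    calc w.length * (S * (X + S + 1)) ≤ V * (V ^ c * (3 * V ^ (c + c'))) :=
          Nat.mul_le_mul hNb (Nat.mul_le_mul hSb hsum)
      _ = 3 * V ^ (1 + 2 * c + c') := by ring
      _ = 3 * (12 * M) ^ k := by rw [hVd, ← pow_mul, hk]
      _ = 3 * 12 ^ k * M ^ k := by rw [mul_pow]; ring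
  have hrhs : (w.length : ℝ) * (d * ((S * (X + S + 1) : ℕ) : ℝ) *
      (4 ^ (KK k d) * (3 * (1 / M))) ^ k) ≤ 3 * d * 12 ^ k * (4 ^ KK k d * 3) ^ k := by
    have e1 : ((4 : ℝ) ^ (KK k d) * (3 * (1 / M))) ^ k = (4 ^ KK k d * 3) ^ k / M ^ k := by
      rw [← div_pow]; congr 1; ring
    rw [e1]
    have e2 : ((w.length * (S * (X + S + 1)) : ℕ) : ℝ) ≤ ((3 * 12 ^ k * M ^ k : ℕ) : ℝ) := by
      exact_mod_cast hprod
    have e3 : (0 : ℝ) < (M : ℝ) ^ k := by positivity
    calc (w.length : ℝ) * (d * ((S * (X + S + 1) : ℕ) : ℝ) * ((4 ^ KK k d * 3) ^ k / M ^ k))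
        = ((w.length * (S * (X + S + 1)) : ℕ) : ℝ) * (d * (4 ^ KK k d * 3) ^ k / M ^ k) := by
          push_cast; ring
      _ ≤ ((3 * 12 ^ k * M ^ k : ℕ) : ℝ) * (d * (4 ^ KK k d * 3) ^ k / M ^ k) :=
          mul_le_mul_of_nonneg_right e2 (by positivity)
      _ = 3 * d * 12 ^ k * (4 ^ KK k d * 3) ^ k := by
          push_cast
          field_simp
  have hlhs : (M : ℝ) ^ d ≤ w.length * (1 / M) ^ d := by
    have e1 : (M : ℝ) ^ (2 * d) ≤ w.length := by exact_mod_cast hM1
    have e2 : (0 : ℝ) < (M : ℝ) ^ d := by positivity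
    rw [one_div, inv_pow, ← div_eq_mul_inv, le_div_iff₀ e2, ← pow_add]
    have : d + d = 2 * d := by ring
    rw [this]
    exact e1
  have hMd : (M : ℝ) ≤ (M : ℝ) ^ d := by
    have : M ≤ M ^ d := Nat.le_self_pow (by omega) _
    exact_mod_cast this
  have hfin : (M : ℝ) ≤ KK k d + 3 * d * 12 ^ k * (4 ^ KK k d * 3) ^ k :=
    hMd.trans (hlhs.trans (hb.trans (add_le_add le_rfl hrhs)))
  have hfin' : M ≤ KK k d + 3 * d * 12 ^ k * (4 ^ KK k d * 3) ^ k := by exact_mod_cast hfin
  omega

/-- Let `L` be a language over a finite alphabet `A`. If `L`-DAGREACH is in (non-uniform) `AC⁰`,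
where the instances are given by the matrix encoding, or by any other encoding by polynomially many
bits each of which depends only on `s`, `t` and one entry of the matrix, then `L` is finite. -/
theorem result {A : Type} [Finite A] (L : Set (List A)) :
    (DagReachInAC0 (matrixEncoding A) L → L.Finite) ∧
    ∀ E : Encoding A, DagReachInAC0 E L → L.Finite := by
  have key : ∀ E : Encoding A, DagReachInAC0 E L → L.Finite := by
    intro E h
    obtain ⟨B, hB⟩ := bounded E L h
    exact (List.finite_length_le A B).subset hB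
  exact ⟨key _, key⟩

end Pool.Agent.Results.MP_2049a1_lc.OnlyFiniteLanguages
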